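import Mathlib
import Pool.Agent.P.MP_baf437_nt.SP.All

namespace Pool.Agent.Results.MP_baf437_nt.SubpolynomialExceptions

/-- There is `C` such that for all `X ≥ 16` and `K ≥ 2`, at most
`exp (C log X √(log log X / log K))` integers `n ≤ X` are a factor `m + i` of some product
`(m+1)⋯(m+k)`, `K ≤ k ≤ m`, that no prime `p > k` divides to exactly the first power. -/
theorem result : ∃ C : ℝ, ∀ X K : ℕ, 16 ≤ X → 2 ≤ K →
    ({n : ℕ | n ≤ X ∧ ∃ m k : ℕ, K ≤ k ∧ k ≤ m ∧ m + 1 ≤ n ∧ n ≤ m + k ∧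
        ¬ ∃ p : ℕ, p.Prime ∧ k < p ∧
          (∏ i ∈ Finset.Icc 1 k, (m + i)).factorization p = 1}.ncard : ℝ) ≤
      Real.exp (C * Real.log X * √(Real.log (Real.log X) / Real.log K)) := by
  obtain ⟨C, hC⟩ := Pool.Agent.P.MP_baf437_nt.SP.sum_all
  refine ⟨C, fun X K hX hK => ?_⟩
  have fin : {n : ℕ | n ≤ X ∧ ∃ m k : ℕ, K ≤ k ∧ k ≤ m ∧ m + 1 ≤ n ∧ n ≤ m + k ∧
      ¬ ∃ p : ℕ, p.Prime ∧ k < p ∧
        (∏ i ∈ Finset.Icc 1 k, (m + i)).factorization p = 1}.Finite :=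
    (Set.finite_Iic X).subset fun n hn => hn.1
  rw [Set.ncard_eq_toFinset_card _ fin]
  exact hC X K _ hX hK fun n hn => fin.mem_toFinset.1 hn

end Pool.Agent.Results.MP_baf437_nt.SubpolynomialExceptions
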