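import Mathlib
import Pool.Agent.P.MP_baf437_nt.Unif

namespace Pool.Agent.Results.MP_baf437_nt.UniformExceptionalSet

/-- For every `ε > 0` there is `C` such that for all `X ≥ 1`, at most `C X^(13/50 + ε)` integers
`n ≤ X` are a factor `m + i` of some product `(m+1)⋯(m+k)`, `2 ≤ k ≤ m`, that no prime `p > k`
divides to exactly the first power. -/
theorem result : ∀ ε : ℝ, 0 < ε → ∃ C : ℝ, ∀ X : ℕ, 1 ≤ X →
    ({n : ℕ | n ≤ X ∧ ∃ m k : ℕ, 2 ≤ k ∧ k ≤ m ∧ m + 1 ≤ n ∧ n ≤ m + k ∧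
        ¬ ∃ p : ℕ, p.Prime ∧ k < p ∧
          (∏ i ∈ Finset.Icc 1 k, (m + i)).factorization p = 1}.ncard : ℝ) ≤
      C * (X : ℝ) ^ (13 / 50 + ε) := by
  intro ε hε
  obtain ⟨C, C0, hC⟩ := Pool.Agent.P.MP_baf437_nt.unif_count (ε := min ε (1 / 50))
    (lt_min hε (by norm_num)) (min_le_right _ _)
  refine ⟨C, fun X hX => ?_⟩
  have fin : {n : ℕ | n ≤ X ∧ ∃ m k : ℕ, 2 ≤ k ∧ k ≤ m ∧ m + 1 ≤ n ∧ n ≤ m + k ∧
      ¬ ∃ p : ℕ, p.Prime ∧ k < p ∧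
        (∏ i ∈ Finset.Icc 1 k, (m + i)).factorization p = 1}.Finite :=
    (Set.finite_Iic X).subset fun n hn => hn.1
  rw [Set.ncard_eq_toFinset_card _ fin]
  refine (hC X hX _ fun n hn => fin.mem_toFinset.1 hn).trans ?_
  have X1 : (1 : ℝ) ≤ X := by exact_mod_cast hX
  gcongr
  exact min_le_left _ _

end Pool.Agent.Results.MP_baf437_nt.UniformExceptionalSet
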